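import Pool.Agent.Helper14.CV.StC

/-!
Project CV, module KerO: dimension of the solution space.
-/

set_option autoImplicit false

namespace Pool.Agent.Helper21.CV

open Pool.Agent.Helper14.CV

theorem hKerO (hRmap : StRmap) (hDimO : StDimO) (hDimF : StDimF) : StKerO := by
  intro k hk
  have h1 := hDimO k hk
  have h2 := hDimF k hk
  rw [← hRmap k hk] at h2
  have h3 := LinearMap.finrank_range_add_finrank_ker ((Rq k).domRestrict (antiO k))
  have h4 : Module.finrank ℂ ↥(LinearMap.range ((Rq k).domRestrict (antiO k)))
      = Module.finrank ℂ ↥((antiO k).map (Rq k)) := by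
    rw [LinearMap.range_domRestrict]
  have h5 : Module.finrank ℂ ↥(LinearMap.ker ((Rq k).domRestrict (antiO k)))
      = Module.finrank ℂ ↥(antiO k ⊓ LinearMap.ker (Rq k)) := by
    have h6 : antiO k ⊓ LinearMap.ker (Rq k)
        = (LinearMap.ker ((Rq k).domRestrict (antiO k))).map (antiO k).subtype := by
      ext x
      simp [Submodule.mem_map, LinearMap.mem_ker, LinearMap.domRestrict_apply, and_comm]
    rw [h6]
    exact (LinearEquiv.finrank_eq (Submodule.equivMapOfInjective _ (antiO k).injective_subtype _))
  generalize 2 ^ (k - 2) * (2 ^ (k - 2) + 1) = X at h1 h2 ⊢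
  omega

end Pool.Agent.Helper21.CV
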